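import Pool.Agent.Y513.Illum3

/-!
# A crown in the boundary of a three-dimensional convex body has at most 44 points
-/

set_option autoImplicit false

namespace Pool.Agent.Y513.Illum

open Set

variable {ι : Type*} {K : Set E} {a x : ι → E} {o : E}

theorem inj3 {α : Type*} {a b c : α} (h12 : a ≠ b) (h13 : a ≠ c) (h23 : b ≠ c) :
    Function.Injective ![a, b, c] := by
  intro u v huv
  fin_cases u <;> fin_cases v
  · rfl
  · exact absurd huv h12
  · exact absurd huv h13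
  · exact absurd huv.symm h12
  · rfl
  · exact absurd huv h23
  · exact absurd huv.symm h13
  · exact absurd huv.symm h23
  · rfl

theorem ne3 {α : Type*} {a b c a' b' c' : α} (h1 : a ≠ a' ∧ b ≠ a' ∧ c ≠ a')
    (h2 : a ≠ b' ∧ b ≠ b' ∧ c ≠ b') (h3 : a ≠ c' ∧ b ≠ c' ∧ c ≠ c') (u v : Fin 3) :
    ![a, b, c] u ≠ ![a', b', c'] v := by
  fin_cases u <;> fin_cases v
  · exact h1.1
  · exact h2.1
  · exact h3.1
  · exact h1.2.1
  · exact h2.2.1
  · exact h3.2.1
  · exact h1.2.2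
  · exact h2.2.2
  · exact h3.2.2

/-- a face contains at most six of the `a` -/
theorem Crown.face_card [DecidableEq ι] (h : Crown K a x) (ho : o ∈ interior K)
    {f : E →L[ℝ] ℝ} (hf : Nf K o f) (s : Finset ι) (hs : ∀ i ∈ s, f (a i - o) = 1) :
    s.card ≤ 6 := by
  classical
  by_contra hcon
  push Not at hcon
  let Adj : ι → ι → Prop := fun i k =>
    ∃ g : E →L[ℝ] ℝ, Nf K o g ∧ g ≠ f ∧ g (a i - o) = 1 ∧ g (a k - o) = 1
  have hsymm : ∀ i k, Adj i k → Adj k i := by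
    rintro i k ⟨g, h1, h2, h3, h4⟩
    exact ⟨g, h1, h2, h4, h3⟩
  have hdeg : ∀ i ∈ s, (s.filter fun k => i ≠ k ∧ Adj i k).card ≤ 2 := by
    intro i hi
    by_contra hc
    push Not at hc
    obtain ⟨k₁, k₂, k₃, m1, m2, m3, n12, n13, n23⟩ := Finset.two_lt_card_iff.1 hc
    rw [Finset.mem_filter] at m1 m2 m3
    obtain ⟨g₁, u1, u2, u3, u4⟩ := m1.2.2
    obtain ⟨g₂, v1, v2, v3, v4⟩ := m2.2.2
    obtain ⟨g₃, w1, w2, w3, w4⟩ := m3.2.2
    exact h.degree m1.2.1 m2.2.1 m3.2.1 n12 n13 n23 (hs i hi) (hs _ m1.1) (hs _ m2.1) (hs _ m3.1)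
      u1 v1 w1 u2 v2 w2 u3 v3 w3 u4 v4 w4
  -- three pairwise nonadjacent points
  have pick : ∀ t : Finset ι, t ⊆ s → ∀ i ∈ s,
      t.card ≤ (t.filter fun k => i ≠ k ∧ ¬ Adj i k).card + 3 := by
    intro t ht i hi
    have h1 := Finset.card_filter_add_card_filter_not (s := t) (fun k => i ≠ k ∧ ¬ Adj i k)
    have h2 : (t.filter fun k => ¬ (i ≠ k ∧ ¬ Adj i k)) ⊆
        insert i (s.filter fun k => i ≠ k ∧ Adj i k) := by
      intro k hk
      rw [Finset.mem_filter] at hk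
      rw [Finset.mem_insert, Finset.mem_filter]
      by_cases hik : i = k
      · left; exact hik.symm
      · right
        refine ⟨ht hk.1, hik, ?_⟩
        by_contra hadj
        exact hk.2 ⟨hik, hadj⟩
    have h3 := (Finset.card_le_card h2).trans (Finset.card_insert_le _ _)
    have h4 := hdeg i hi
    omega
  obtain ⟨i₁, hi₁⟩ : s.Nonempty := Finset.card_pos.1 (by omega)
  set s₁ := s.filter fun k => i₁ ≠ k ∧ ¬ Adj i₁ k with hs₁
  have c1 : s.card ≤ s₁.card + 3 := pick s subset_rfl i₁ hi₁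
  obtain ⟨i₂, hi₂⟩ : s₁.Nonempty := Finset.card_pos.1 (by omega)
  have hi₂s := hi₂
  rw [hs₁, Finset.mem_filter] at hi₂s
  set s₂ := s₁.filter fun k => i₂ ≠ k ∧ ¬ Adj i₂ k with hs₂
  have c2 : s₁.card ≤ s₂.card + 3 := pick s₁ (Finset.filter_subset _ _) i₂ hi₂s.1
  obtain ⟨i₃, hi₃⟩ : s₂.Nonempty := Finset.card_pos.1 (by omega)
  have hi₃s := hi₃
  rw [hs₂, Finset.mem_filter, hs₁, Finset.mem_filter] at hi₃s
  obtain ⟨⟨hi₃s, n13, a13⟩, n23, a23⟩ := hi₃s
  obtain ⟨hi₂s, n12, a12⟩ := hi₂s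
  -- three other points
  have hsub : ({i₁, i₂, i₃} : Finset ι) ⊆ s := by
    intro k hk
    simp only [Finset.mem_insert, Finset.mem_singleton] at hk
    rcases hk with rfl | rfl | rfl
    · exact hi₁
    · exact hi₂s
    · exact hi₃s
  have hc3 : ({i₁, i₂, i₃} : Finset ι).card = 3 := by
    rw [Finset.card_eq_three]
    exact ⟨i₁, i₂, i₃, n12, n13, n23, rfl⟩
  have hcd : 2 < (s \ {i₁, i₂, i₃}).card := by
    rw [Finset.card_sdiff_of_subset hsub, hc3]; omega
  obtain ⟨j₁, j₂, j₃, m1, m2, m3, l12, l13, l23⟩ := Finset.two_lt_card_iff.1 hcd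
  rw [Finset.mem_sdiff] at m1 m2 m3
  simp only [Finset.mem_insert, Finset.mem_singleton, not_or] at m1 m2 m3
  have hJs : ∀ q : Fin 3, ![j₁, j₂, j₃] q ∈ s := by
    intro q; fin_cases q
    · exact m1.1
    · exact m2.1
    · exact m3.1
  have hIs : ∀ q : Fin 3, ![i₁, i₂, i₃] q ∈ s := by
    intro q; fin_cases q
    · exact hi₁
    · exact hi₂s
    · exact hi₃s
  obtain ⟨p, p', q, q', hp, hq, g, c, hg, g1, g2, g3, g4⟩ :=
    h.four ⟨o, ho⟩ ![i₁, i₂, i₃] ![j₁, j₂, j₃] (inj3 n12 n13 n23) (inj3 l12 l13 l23)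
      (ne3 ⟨fun e => m1.2.1 e.symm, fun e => m1.2.2.1 e.symm, fun e => m1.2.2.2 e.symm⟩
        ⟨fun e => m2.2.1 e.symm, fun e => m2.2.2.1 e.symm, fun e => m2.2.2.2 e.symm⟩
        ⟨fun e => m3.2.1 e.symm, fun e => m3.2.2.1 e.symm, fun e => m3.2.2.2 e.symm⟩)
      (by
        intro u v huv
        apply h.nf hf _ (hs _ (hJs v))
        rw [← huv]
        exact hs _ (hIs u))
  obtain ⟨g', hg', hg1⟩ := hg.normalize ho
  have hne : g' ≠ f := by
    intro he
    apply h.nf hf _ (hs _ (hJs q))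
    rw [← he]
    exact hg1 _ g3
  have hadj : Adj (![i₁, i₂, i₃] p) (![i₁, i₂, i₃] p') := ⟨g', hg', hne, hg1 _ g1, hg1 _ g2⟩
  have hadj' := hsymm _ _ hadj
  fin_cases p <;> fin_cases p' <;> first
    | exact absurd rfl hp
    | exact a12 hadj
    | exact a12 hadj'
    | exact a13 hadj
    | exact a13 hadj'
    | exact a23 hadj
    | exact a23 hadj'

/-- a finite set of functionals without three different ones has at most two elements -/
theorem exists_two {α : Type*} (P : α → Prop)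
    (h : ∀ f₁ f₂ f₃, P f₁ → P f₂ → P f₃ → f₁ = f₂ ∨ f₁ = f₃ ∨ f₂ = f₃) :
    (∀ f, ¬ P f) ∨ ∃ f₁ f₂, P f₁ ∧ P f₂ ∧ ∀ f, P f → f = f₁ ∨ f = f₂ := by
  by_cases h0 : ∃ f, P f
  · right
    obtain ⟨f₁, h1⟩ := h0
    by_cases h2 : ∃ f, P f ∧ f ≠ f₁
    · obtain ⟨f₂, h2, h3⟩ := h2
      refine ⟨f₁, f₂, h1, h2, fun f hf => ?_⟩
      rcases h f₁ f₂ f h1 h2 hf with h4 | h4 | h4
      · exact absurd h4.symm h3
      · left; exact h4.symm
      · right; exact h4.symm
    · push Not at h2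
      exact ⟨f₁, f₁, h1, h1, fun f hf => Or.inl (h2 f hf)⟩
  · left
    push Not at h0
    exact h0

/-- the two-dimensional faces through two of the `x` contain at most twelve of the `a` -/
theorem Crown.pair_card [DecidableEq ι] (h : Crown K a x) (ho : o ∈ interior K) (j l : ι)
    (s : Finset ι)
    (hs : ∀ i ∈ s, ∃ f : E →L[ℝ] ℝ, Nf K o f ∧ f (x j - o) = 1 ∧ f (x l - o) = 1 ∧
      f (a i - o) = 1 ∧ ∃ k, f (a k - o) = 1 ∧ AffineIndependent ℝ ![x j, x l, a k]) :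
    s.card ≤ 12 := by
  classical
  let P : (E →L[ℝ] ℝ) → Prop := fun f => Nf K o f ∧ f (x j - o) = 1 ∧ f (x l - o) = 1 ∧
    ∃ k, f (a k - o) = 1 ∧ AffineIndependent ℝ ![x j, x l, a k]
  have hP : ∀ f₁ f₂ f₃, P f₁ → P f₂ → P f₃ → f₁ = f₂ ∨ f₁ = f₃ ∨ f₂ = f₃ := by
    rintro f₁ f₂ f₃ ⟨u1, u2, u3, k₁, u4, u5⟩ ⟨v1, v2, v3, k₂, v4, v5⟩ ⟨w1, w2, w3, k₃, w4, w5⟩
    exact pencil u1 v1 w1 (h.aK k₁) (h.aK k₂) (h.aK k₃) u5 v5 w5 u2 v2 w2 u3 v3 w3 u4 v4 w4
  rcases exists_two P hP with h0 | ⟨f₁, f₂, hf₁, hf₂, hall⟩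
  · have : s = ∅ := by
      rw [Finset.eq_empty_iff_forall_notMem]
      intro i hi
      obtain ⟨f, h1, h2, h3, -, h5⟩ := hs i hi
      exact h0 f ⟨h1, h2, h3, h5⟩
    rw [this]; simp
  · have hsub : s ⊆ (s.filter fun i => f₁ (a i - o) = 1) ∪ (s.filter fun i => f₂ (a i - o) = 1) := by
      intro i hi
      obtain ⟨f, h1, h2, h3, h4, h5⟩ := hs i hi
      rw [Finset.mem_union, Finset.mem_filter, Finset.mem_filter]
      rcases hall f ⟨h1, h2, h3, h5⟩ with rfl | rfl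
      · left; exact ⟨hi, h4⟩
      · right; exact ⟨hi, h4⟩
    have h1 := h.face_card ho hf₁.1 (s.filter fun i => f₁ (a i - o) = 1)
      (fun i hi => (Finset.mem_filter.1 hi).2)
    have h2 := h.face_card ho hf₂.1 (s.filter fun i => f₂ (a i - o) = 1)
      (fun i hi => (Finset.mem_filter.1 hi).2)
    have h3 := (Finset.card_le_card hsub).trans (Finset.card_union_le _ _)
    omega

/-- two of the `a` are not both on the line of two of the `x` -/
theorem Crown.off_line (h : Crown K a x) {i k j l : ι} (hik : i ≠ k) (hjl : j ≠ l)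
    (h1 : a i ≠ x j) (h2 : a i ≠ x l) (h3 : a k ≠ x j) (h4 : a k ≠ x l) :
    AffineIndependent ℝ ![x j, x l, a i] ∨ AffineIndependent ℝ ![x j, x l, a k] := by
  by_contra hcon
  push Not at hcon
  obtain ⟨c1, c2⟩ := hcon
  rw [affineIndependent_iff_not_collinear_set, not_not] at c1 c2
  have mid : ∀ m : ι, a m ≠ x j → a m ≠ x l → Collinear ℝ {x j, x l, a m} →
      ∃ t : ℝ, 0 < t ∧ t < 1 ∧ a m = (1 - t) • x l + t • x j := by
    intro m n1 n2 hc
    rcases hc.wbtw_or_wbtw_or_wbtw with hw | hw | hw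
    · exact absurd ⟨hw, h.symm.ne hjl.symm, n2.symm⟩ (h.symm.noSbtw hjl.symm (h.aK m))
    · obtain ⟨t, ⟨ht0, ht1⟩, ht⟩ := hw
      rw [AffineMap.lineMap_apply_module] at ht
      refine ⟨t, ?_, ?_, ht.symm⟩
      · refine lt_of_le_of_ne ht0 fun h0 => n2 ?_
        rw [← ht, ← h0]; simp
      · refine lt_of_le_of_ne ht1 fun h0 => n1 ?_
        rw [← ht, h0]; simp
    · have hw' := hw.symm
      exact absurd ⟨hw', h.symm.ne hjl, n1.symm⟩ (h.symm.noSbtw hjl (h.aK m))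
  obtain ⟨s, s0, s1, hs⟩ := mid i h1 h2 c1
  obtain ⟨t, t0, t1, ht⟩ := mid k h3 h4 c2
  rcases lt_trichotomy s t with hst | hst | hst
  · -- `a i` between `x l` and `a k`
    refine h.noMid hik (h.xK l) (t := 1 - s / t) ?_ ?_ ?_
    · rw [sub_pos, div_lt_one t0]; exact hst
    · have : 0 < s / t := div_pos s0 t0
      linarith
    · rw [ht, hs]
      have e1 : (1 - (1 - s / t)) = s / t := by ring
      rw [e1, smul_add, smul_smul, smul_smul, add_assoc, add_comm ((s / t * t) • x j), ← add_assoc,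
        ← add_smul]
      congr 2
      · field_simp; ring
      · field_simp
  · apply h.ne hik
    rw [hs, ht, hst]
  · refine h.noMid hik.symm (h.xK l) (t := 1 - t / s) ?_ ?_ ?_
    · rw [sub_pos, div_lt_one s0]; exact hst
    · have : 0 < t / s := div_pos t0 s0
      linarith
    · rw [ht, hs]
      have e1 : (1 - (1 - t / s)) = t / s := by ring
      rw [e1, smul_add, smul_smul, smul_smul, add_assoc, add_comm ((t / s * s) • x j), ← add_assoc,
        ← add_smul]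
      congr 2
      · field_simp; ring
      · field_simp

/-- **a crown has at most 44 elements** -/
theorem Crown.card_le [DecidableEq ι] (h : Crown K a x) (ho : o ∈ interior K) (s : Finset ι) :
    s.card ≤ 44 := by
  classical
  by_contra hcon
  push Not at hcon
  obtain ⟨j₁, j₂, j₃, m1, m2, m3, l12, l13, l23⟩ := Finset.two_lt_card_iff.1 (show 2 < s.card by omega)
  let D : ι → ι → ι → Prop := fun j l i => ∃ f : E →L[ℝ] ℝ, Nf K o f ∧ f (x j - o) = 1 ∧
    f (x l - o) = 1 ∧ f (a i - o) = 1 ∧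
      ∃ k, f (a k - o) = 1 ∧ AffineIndependent ℝ ![x j, x l, a k]
  have hD : ∀ j l, (s.filter (D j l)).card ≤ 12 := fun j l =>
    h.pair_card ho j l _ fun i hi => (Finset.mem_filter.1 hi).2
  have hC : ∀ j, (s.filter fun i => a i = x j).card ≤ 1 := by
    intro j
    rw [Finset.card_le_one]
    intro i hi k hk
    rw [Finset.mem_filter] at hi hk
    by_contra hik
    exact h.ne hik (hi.2.trans hk.2.symm)
  set B : Finset ι := {j₁, j₂, j₃} ∪ ((s.filter fun i => a i = x j₁) ∪ ((s.filter fun i => a i = x j₂)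
    ∪ (s.filter fun i => a i = x j₃))) ∪ ((s.filter (D j₁ j₂)) ∪ ((s.filter (D j₁ j₃)) ∪
      (s.filter (D j₂ j₃)))) with hB
  have hBcard : B.card ≤ 42 := by
    have e0 : ({j₁, j₂, j₃} : Finset ι).card ≤ 3 := Finset.card_le_three
    have e1 := hC j₁
    have e2 := hC j₂
    have e3 := hC j₃
    have e4 := hD j₁ j₂
    have e5 := hD j₁ j₃
    have e6 := hD j₂ j₃
    have f1 := Finset.card_union_le (s.filter fun i => a i = x j₂) (s.filter fun i => a i = x j₃)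
    have f2 := Finset.card_union_le (s.filter fun i => a i = x j₁)
      ((s.filter fun i => a i = x j₂) ∪ (s.filter fun i => a i = x j₃))
    have f3 := Finset.card_union_le (s.filter (D j₁ j₃)) (s.filter (D j₂ j₃))
    have f4 := Finset.card_union_le (s.filter (D j₁ j₂))
      ((s.filter (D j₁ j₃)) ∪ (s.filter (D j₂ j₃)))
    have f5 := Finset.card_union_le ({j₁, j₂, j₃} : Finset ι) ((s.filter fun i => a i = x j₁) ∪
      ((s.filter fun i => a i = x j₂) ∪ (s.filter fun i => a i = x j₃)))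
    have f6 := Finset.card_union_le ({j₁, j₂, j₃} ∪ ((s.filter fun i => a i = x j₁) ∪
      ((s.filter fun i => a i = x j₂) ∪ (s.filter fun i => a i = x j₃))))
      ((s.filter (D j₁ j₂)) ∪ ((s.filter (D j₁ j₃)) ∪ (s.filter (D j₂ j₃))))
    rw [hB]
    omega
  have hcd : 2 < (s \ B).card := by
    have := Finset.le_card_sdiff B s
    omega
  obtain ⟨i₁, i₂, i₃, n1, n2, n3, k12, k13, k23⟩ := Finset.two_lt_card_iff.1 hcd
  set i : Fin 3 → ι := ![i₁, i₂, i₃] with hi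
  set j : Fin 3 → ι := ![j₁, j₂, j₃] with hj
  have hmem : ∀ p, i p ∈ s \ B := by
    intro p; fin_cases p
    · exact n1
    · exact n2
    · exact n3
  have hiinj : Function.Injective i := inj3 k12 k13 k23
  have hjinj : Function.Injective j := inj3 l12 l13 l23
  have hsB : ∀ p, i p ∈ s ∧ i p ≠ j₁ ∧ i p ≠ j₂ ∧ i p ≠ j₃ ∧ a (i p) ≠ x j₁ ∧ a (i p) ≠ x j₂ ∧
      a (i p) ≠ x j₃ ∧ ¬ D j₁ j₂ (i p) ∧ ¬ D j₁ j₃ (i p) ∧ ¬ D j₂ j₃ (i p) := by
    intro p
    have h1 := hmem p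
    rw [Finset.mem_sdiff] at h1
    obtain ⟨h1, h2⟩ := h1
    simp only [hB, Finset.mem_union, Finset.mem_insert, Finset.mem_singleton, Finset.mem_filter,
      not_or, h1, true_and] at h2
    exact ⟨h1, h2.1.1.1, h2.1.1.2.1, h2.1.1.2.2, h2.1.2.1, h2.1.2.2.1, h2.1.2.2.2, h2.2.1,
      h2.2.2.1, h2.2.2.2⟩
  have hij : ∀ p q, i p ≠ j q := by
    intro p q
    obtain ⟨-, h1, h2, h3, -⟩ := hsB p
    fin_cases q
    · exact h1
    · exact h2
    · exact h3
  have hne : ∀ p q, a (i p) ≠ x (j q) := by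
    intro p q
    obtain ⟨-, -, -, -, h1, h2, h3, -⟩ := hsB p
    fin_cases q
    · exact h1
    · exact h2
    · exact h3
  obtain ⟨p, p', q, q', hp, hq, f, c, hf, f1, f2, f3, f4⟩ := h.four ⟨o, ho⟩ i j hiinj hjinj hij hne
  obtain ⟨g, hg, hg1⟩ := hf.normalize ho
  have hoff := h.off_line (fun e => hp (hiinj e)) (fun e => hq (hjinj e)) (hne p q) (hne p q')
    (hne p' q) (hne p' q')
  have hoff' := h.off_line (fun e => hp (hiinj e)) (fun e => hq (hjinj e).symm) (hne p q')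
    (hne p q) (hne p' q') (hne p' q)
  have hDq : D (j q) (j q') (i p) := by
    refine ⟨g, hg, hg1 _ f3, hg1 _ f4, hg1 _ f1, ?_⟩
    rcases hoff with h1 | h1
    · exact ⟨_, hg1 _ f1, h1⟩
    · exact ⟨_, hg1 _ f2, h1⟩
  have hDq' : D (j q') (j q) (i p) := by
    refine ⟨g, hg, hg1 _ f4, hg1 _ f3, hg1 _ f1, ?_⟩
    rcases hoff' with h1 | h1
    · exact ⟨_, hg1 _ f1, h1⟩
    · exact ⟨_, hg1 _ f2, h1⟩
  obtain ⟨-, -, -, -, -, -, -, b12, b13, b23⟩ := hsB p
  fin_cases q <;> fin_cases q' <;> first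
    | exact absurd rfl hq
    | exact b12 hDq
    | exact b12 hDq'
    | exact b13 hDq
    | exact b13 hDq'
    | exact b23 hDq
    | exact b23 hDq'

end Pool.Agent.Y513.Illum
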