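import Mathlib

/-!
# Two antipodally symmetric hexagons on a sphere intersect

The linear form of the nonplanarity of `K_{3,3}`: given three linearly independent vectors `v` and
three vectors `u` of a three-dimensional space there are `p ≠ p'`, `q ≠ q'` and nonnegative
coefficients, not all zero, with `α v_p + β u_q' = γ v_p' + δ u_q`.  The proof uses the median of
the three coordinates with respect to `v` and the intermediate value theorem.
-/

set_option autoImplicit false

namespace Pool.Agent.Y513.Illum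

open Set

/-- the three-dimensional Euclidean space -/
abbrev E := EuclideanSpace ℝ (Fin 3)

/-- the median of three real numbers -/
noncomputable def med (a b c : ℝ) : ℝ := max (min a b) (min (max a b) c)

theorem med_neg (a b c : ℝ) : med (-a) (-b) (-c) = -med a b c := by
  unfold med
  rcases le_total a b with h1 | h1 <;> rcases le_total b c with h2 | h2 <;>
    rcases le_total a c with h3 | h3 <;>
    simp only [min_def, max_def] <;> split_ifs <;> linarith

theorem med_cont : Continuous fun p : ℝ × ℝ × ℝ => med p.1 p.2.1 p.2.2 := by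
  unfold med
  fun_prop

theorem med_zero (c : Fin 3 → ℝ) (h : med (c 0) (c 1) (c 2) = 0) :
    ∃ p p' : Fin 3, p ≠ p' ∧ ∃ α γ : ℝ, 0 ≤ α ∧ 0 ≤ γ ∧
      ∀ m, c m = if m = p then α else if m = p' then -γ else 0 := by
  have key : (c 0 = 0 ∧ c 1 ≤ 0 ∧ 0 ≤ c 2) ∨ (c 0 = 0 ∧ 0 ≤ c 1 ∧ c 2 ≤ 0) ∨
      (c 1 = 0 ∧ c 0 ≤ 0 ∧ 0 ≤ c 2) ∨ (c 1 = 0 ∧ 0 ≤ c 0 ∧ c 2 ≤ 0) ∨
      (c 2 = 0 ∧ c 0 ≤ 0 ∧ 0 ≤ c 1) ∨ (c 2 = 0 ∧ 0 ≤ c 0 ∧ c 1 ≤ 0) := by
    unfold med at h
    rcases le_total (c 0) (c 1) with h1 | h1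
    · rw [min_eq_left h1, max_eq_right h1] at h
      rcases le_total (c 1) (c 2) with h2 | h2
      · rw [min_eq_left h2, max_eq_right h1] at h
        right; right; left
        exact ⟨h, by linarith, by linarith⟩
      · rw [min_eq_right h2] at h
        rcases le_total (c 0) (c 2) with h3 | h3
        · rw [max_eq_right h3] at h
          right; right; right; right; left
          exact ⟨h, by linarith, by linarith⟩
        · rw [max_eq_left h3] at h
          right; left
          exact ⟨h, by linarith, by linarith⟩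
    · rw [min_eq_right h1, max_eq_left h1] at h
      rcases le_total (c 0) (c 2) with h2 | h2
      · rw [min_eq_left h2, max_eq_right h1] at h
        left
        exact ⟨h, by linarith, by linarith⟩
      · rw [min_eq_right h2] at h
        rcases le_total (c 1) (c 2) with h3 | h3
        · rw [max_eq_right h3] at h
          right; right; right; right; right
          exact ⟨h, by linarith, by linarith⟩
        · rw [max_eq_left h3] at h
          right; right; right; left
          exact ⟨h, by linarith, by linarith⟩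
  rcases key with ⟨h0, h1, h2⟩ | ⟨h0, h1, h2⟩ | ⟨h0, h1, h2⟩ | ⟨h0, h1, h2⟩ | ⟨h0, h1, h2⟩ |
    ⟨h0, h1, h2⟩
  · refine ⟨2, 1, by decide, c 2, -c 1, h2, by linarith, fun m => ?_⟩
    fin_cases m <;> simp [h0]
  · refine ⟨1, 2, by decide, c 1, -c 2, h1, by linarith, fun m => ?_⟩
    fin_cases m <;> simp [h0]
  · refine ⟨2, 0, by decide, c 2, -c 0, h2, by linarith, fun m => ?_⟩
    fin_cases m <;> simp [h0]
  · refine ⟨0, 2, by decide, c 0, -c 2, h1, by linarith, fun m => ?_⟩
    fin_cases m <;> simp [h0]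
  · refine ⟨1, 0, by decide, c 1, -c 0, h2, by linarith, fun m => ?_⟩
    fin_cases m <;> simp [h0]
  · refine ⟨0, 1, by decide, c 0, -c 1, h1, by linarith, fun m => ?_⟩
    fin_cases m <;> simp [h0]

/-- an odd continuous function vanishes on the antipodal hexagon of `u` -/
theorem hexagon_zero (g : E → ℝ) (hg : Continuous g) (hodd : ∀ x, g (-x) = -g x)
    (u : Fin 3 → E) :
    ∃ q q' : Fin 3, q ≠ q' ∧ ∃ t : ℝ, 0 ≤ t ∧ t ≤ 1 ∧ g ((1 - t) • u q - t • u q') = 0 := by
  -- sign change along a segment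
  have seg : ∀ q q' : Fin 3, q ≠ q' → g (u q) * (-g (u q')) ≤ 0 →
      ∃ t : ℝ, 0 ≤ t ∧ t ≤ 1 ∧ g ((1 - t) • u q - t • u q') = 0 := by
    intro q q' _ hs
    set G : ℝ → ℝ := fun t => g ((1 - t) • u q - t • u q') with hG
    have hGc : Continuous G := by
      apply hg.comp
      fun_prop
    have h0 : G 0 = g (u q) := by simp [hG]
    have h1 : G 1 = -g (u q') := by simp [hG, hodd]
    rcases le_total (G 0) 0 with h | h
    · rcases le_total 0 (G 1) with h' | h'
      · obtain ⟨t, ht, hGt⟩ := intermediate_value_Icc (zero_le_one' ℝ) hGc.continuousOn ⟨h, h'⟩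
        exact ⟨t, ht.1, ht.2, hGt⟩
      · rw [← h0, ← h1] at hs
        rcases eq_or_lt_of_le h with h2 | h2
        · exact ⟨0, le_rfl, zero_le_one, h2⟩
        · rcases eq_or_lt_of_le h' with h3 | h3
          · exact ⟨1, zero_le_one, le_rfl, h3⟩
          · nlinarith
    · rcases le_total (G 1) 0 with h' | h'
      · obtain ⟨t, ht, hGt⟩ := intermediate_value_Icc' (zero_le_one' ℝ) hGc.continuousOn ⟨h', h⟩
        exact ⟨t, ht.1, ht.2, hGt⟩
      · rw [← h0, ← h1] at hs
        rcases eq_or_lt_of_le h with h2 | h2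
        · exact ⟨0, le_rfl, zero_le_one, h2.symm⟩
        · rcases eq_or_lt_of_le h' with h3 | h3
          · exact ⟨1, zero_le_one, le_rfl, h3.symm⟩
          · nlinarith
  by_cases h01 : g (u 0) * (-g (u 1)) ≤ 0
  · exact ⟨0, 1, by decide, seg 0 1 (by decide) h01⟩
  by_cases h12 : g (u 1) * (-g (u 2)) ≤ 0
  · exact ⟨1, 2, by decide, seg 1 2 (by decide) h12⟩
  by_cases h20 : g (u 2) * (-g (u 0)) ≤ 0
  · exact ⟨2, 0, by decide, seg 2 0 (by decide) h20⟩
  exfalso
  push Not at h01 h12 h20
  have h1 : g (u 0) * g (u 1) < 0 := by linarith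
  have h2 : g (u 1) * g (u 2) < 0 := by linarith
  have h3 : g (u 2) * g (u 0) < 0 := by linarith
  have h4 : 0 < (g (u 0) * g (u 1)) * (g (u 1) * g (u 2)) := mul_pos_of_neg_of_neg h1 h2
  have h5 : (g (u 0) * g (u 1)) * (g (u 1) * g (u 2)) * (g (u 2) * g (u 0)) < 0 :=
    mul_neg_of_pos_of_neg h4 h3
  have h6 : (g (u 0) * g (u 1)) * (g (u 1) * g (u 2)) * (g (u 2) * g (u 0)) =
      (g (u 0) * g (u 1) * g (u 2)) ^ 2 := by ring
  rw [h6] at h5
  exact absurd h5 (not_lt.2 (sq_nonneg _))

/-- **the linear form of the nonplanarity of `K_{3,3}`** -/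
theorem crossing (v u : Fin 3 → E) (hv : LinearIndependent ℝ v) :
    ∃ p p' q q' : Fin 3, p ≠ p' ∧ q ≠ q' ∧ ∃ α γ t : ℝ, 0 ≤ α ∧ 0 ≤ γ ∧ 0 ≤ t ∧ t ≤ 1 ∧
      α • v p + t • u q' = γ • v p' + (1 - t) • u q := by
  have hcard : Fintype.card (Fin 3) = Module.finrank ℝ E := by simp
  set b := basisOfLinearIndependentOfCardEqFinrank hv hcard with hb
  have hbv : ∀ i, b i = v i := fun i => by
    rw [hb, coe_basisOfLinearIndependentOfCardEqFinrank]
  set g : E → ℝ := fun x => med (b.repr x 0) (b.repr x 1) (b.repr x 2) with hg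
  have hcoord : ∀ i, Continuous fun x : E => b.repr x i := fun i =>
    (LinearMap.continuous_of_finiteDimensional (b.coord i))
  have hgc : Continuous g := by
    have : Continuous fun x : E => ((b.repr x 0, b.repr x 1, b.repr x 2) : ℝ × ℝ × ℝ) :=
      (hcoord 0).prodMk ((hcoord 1).prodMk (hcoord 2))
    exact med_cont.comp this
  have hodd : ∀ x, g (-x) = -g x := by
    intro x
    simp only [hg, map_neg, Finsupp.coe_neg, Pi.neg_apply]
    exact med_neg _ _ _
  obtain ⟨q, q', hq, t, ht0, ht1, hz⟩ := hexagon_zero g hgc hodd u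
  obtain ⟨p, p', hp, α, γ, hα, hγ, hc⟩ := med_zero (fun i => b.repr ((1 - t) • u q - t • u q') i) hz
  refine ⟨p, p', q, q', hp, hq, α, γ, t, hα, hγ, ht0, ht1, ?_⟩
  have h1 : (1 - t) • u q - t • u q' = α • v p - γ • v p' := by
    rw [← b.sum_repr ((1 - t) • u q - t • u q')]
    have h2 : ∀ i, b.repr ((1 - t) • u q - t • u q') i • b i =
        (if i = p then α • v i else 0) + (if i = p' then -(γ • v i) else 0) := by
      intro i
      rw [hc i, hbv]
      by_cases h3 : i = p
      · have h4 : i ≠ p' := fun h => hp (h3.symm.trans h)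
        simp [h3, hp]
      · by_cases h4 : i = p'
        · simp [h4, hp.symm]
        · simp [h3, h4]
    rw [Finset.sum_congr rfl fun i _ => h2 i, Finset.sum_add_distrib]
    simp [sub_eq_add_neg]
  have h5 : (1 - t) • u q = α • v p - γ • v p' + t • u q' := by
    rw [← h1]; abel
  rw [h5]
  abel

end Pool.Agent.Y513.Illum
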