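import Pool.Agent.Y513.Illum1

/-!
# Crowns on the boundary of a three-dimensional convex body

A crown in `K` consists of points `a i`, `x i` such that `a i` and `x j` lie in a common supporting
plane exactly if `i ≠ j`.
-/

set_option autoImplicit false

namespace Pool.Agent.Y513.Illum

open Set

/-- `{f = c}` is a supporting plane of `K` -/
def Sup (K : Set E) (f : E →L[ℝ] ℝ) (c : ℝ) : Prop :=
  (∀ z ∈ K, f z ≤ c) ∧ ∀ z ∈ interior K, f z < c

/-- crowns -/
structure Crown {ι : Type*} (K : Set E) (a x : ι → E) : Prop where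
  aK : ∀ i, a i ∈ K
  xK : ∀ i, x i ∈ K
  sup : ∀ i j, i ≠ j → ∃ (f : E →L[ℝ] ℝ) (c : ℝ), Sup K f c ∧ f (a i) = c ∧ f (x j) = c
  nsup : ∀ i (f : E →L[ℝ] ℝ) (c : ℝ), Sup K f c → f (a i) = c → f (x i) = c → False

variable {ι : Type*} {K : Set E} {a x : ι → E}

theorem Crown.symm (h : Crown K a x) : Crown K x a where
  aK := h.xK
  xK := h.aK
  sup i j hij := by
    obtain ⟨f, c, h1, h2, h3⟩ := h.sup j i hij.symm
    exact ⟨f, c, h1, h3, h2⟩
  nsup i f c h1 h2 h3 := h.nsup i f c h1 h3 h2

theorem Crown.ne (h : Crown K a x) {i k : ι} (hik : i ≠ k) : a i ≠ a k := by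
  intro he
  obtain ⟨f, c, h1, h2, h3⟩ := h.sup i k hik
  exact h.nsup k f c h1 (by rw [← he]; exact h2) h3

/-- a supporting plane through an interior point of a segment contains the segment -/
theorem Sup.ends {f : E →L[ℝ] ℝ} {c : ℝ} (h : Sup K f c) {u v : E} (hu : u ∈ K) (hv : v ∈ K)
    {t : ℝ} (h0 : 0 < t) (h1 : t < 1) (he : f ((1 - t) • u + t • v) = c) : f u = c ∧ f v = c := by
  have h2 := h.1 u hu
  have h3 := h.1 v hv
  rw [map_add, map_smul, map_smul, smul_eq_mul, smul_eq_mul] at he
  constructor
  · by_contra hne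
    have h4 : f u < c := lt_of_le_of_ne h2 hne
    nlinarith
  · by_contra hne
    have h4 : f v < c := lt_of_le_of_ne h3 hne
    nlinarith

/-- `a i` is not in an open segment from `a k` to a point of `K` -/
theorem Crown.noMid (h : Crown K a x) {i k : ι} (hik : i ≠ k) {z : E} (hz : z ∈ K) {t : ℝ}
    (h0 : 0 < t) (h1 : t < 1) : a i ≠ (1 - t) • a k + t • z := by
  intro he
  obtain ⟨f, c, h2, h3, h4⟩ := h.sup i k hik
  rw [he] at h3
  exact h.nsup k f c h2 (h2.ends (h.aK k) hz h0 h1 h3).1 h4

theorem Crown.noSbtw (h : Crown K a x) {i k : ι} (hik : i ≠ k) {z : E} (hz : z ∈ K) :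
    ¬ Sbtw ℝ (a k) (a i) z := by
  rintro ⟨⟨t, ⟨ht0, ht1⟩, ht⟩, hne1, hne2⟩
  have h0 : 0 < t := by
    refine lt_of_le_of_ne ht0 fun h0 => hne1 ?_
    rw [← ht, ← h0, AffineMap.lineMap_apply_zero]
  have h1 : t < 1 := by
    refine lt_of_le_of_ne ht1 fun h1 => hne2 ?_
    rw [← ht, h1, AffineMap.lineMap_apply_one]
  refine h.noMid hik hz h0 h1 ?_
  rw [← ht, AffineMap.lineMap_apply_module]

/-- three of the points are not on a line -/
theorem Crown.affineIndependent (h : Crown K a x) (i : Fin 3 → ι) (hi : Function.Injective i) :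
    AffineIndependent ℝ (a ∘ i) := by
  have he : a ∘ i = ![a (i 0), a (i 1), a (i 2)] := by
    funext m; fin_cases m <;> rfl
  rw [he, affineIndependent_iff_not_collinear_set]
  intro hc
  have h01 : i 0 ≠ i 1 := fun h => absurd (hi h) (by decide)
  have h12 : i 1 ≠ i 2 := fun h => absurd (hi h) (by decide)
  have h02 : i 0 ≠ i 2 := fun h => absurd (hi h) (by decide)
  rcases hc.wbtw_or_wbtw_or_wbtw with hw | hw | hw
  · exact h.noSbtw h01.symm (h.aK (i 2)) ⟨hw, h.ne h01.symm, h.ne h12⟩
  · exact h.noSbtw h12.symm (h.aK (i 0)) ⟨hw, h.ne h12.symm, h.ne h02.symm⟩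
  · exact h.noSbtw h02 (h.aK (i 1)) ⟨hw, h.ne h02, h.ne h01⟩

/-- an interior point outside the plane of three points -/
theorem exists_origin (hint : (interior K).Nonempty) (p : Fin 3 → E) (hp : AffineIndependent ℝ p) :
    ∃ o ∈ interior K, LinearIndependent ℝ (fun i => p i - o) := by
  classical
  set W : Submodule ℝ E := Submodule.span ℝ ({p 1 - p 0, p 2 - p 0} : Set E) with hW
  have hWt : W < ⊤ := by
    rw [lt_top_iff_ne_top]
    intro ht
    have h1 : Module.finrank ℝ W ≤ 2 := by
      have h2 := finrank_span_finset_le_card (R := ℝ) ({p 1 - p 0, p 2 - p 0} : Finset E)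
      have h3 : (({p 1 - p 0, p 2 - p 0} : Finset E)).card ≤ 2 := Finset.card_le_two
      rw [Finset.coe_insert, Finset.coe_singleton] at h2
      exact h2.trans h3
    rw [ht, finrank_top] at h1
    simp at h1
  obtain ⟨h, hne, hker⟩ := Submodule.exists_le_ker_of_lt_top W hWt
  have h10 : h (p 1) = h (p 0) := by
    have : p 1 - p 0 ∈ LinearMap.ker h := hker (Submodule.subset_span (by simp))
    rw [LinearMap.mem_ker, map_sub, sub_eq_zero] at this
    exact this
  have h20 : h (p 2) = h (p 0) := by
    have : p 2 - p 0 ∈ LinearMap.ker h := hker (Submodule.subset_span (by simp))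
    rw [LinearMap.mem_ker, map_sub, sub_eq_zero] at this
    exact this
  have hall : ∀ i, h (p i) = h (p 0) := by
    intro i; fin_cases i
    · rfl
    · exact h10
    · exact h20
  -- the origin
  obtain ⟨o, ho, hoh⟩ : ∃ o ∈ interior K, h o ≠ h (p 0) := by
    by_contra hcon
    push Not at hcon
    apply hne
    obtain ⟨z, hz⟩ := hint
    ext v
    have hcont : Continuous fun t : ℝ => z + t • v := by fun_prop
    have hev : ∀ᶠ t : ℝ in nhds 0, z + t • v ∈ interior K := by
      apply hcont.continuousAt.preimage_mem_nhds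
      simpa using isOpen_interior.mem_nhds hz
    obtain ⟨ε, hε, hball⟩ := Metric.eventually_nhds_iff.1 hev
    have h1 := hcon _ (hball (y := ε / 2) (by
      rw [Real.dist_eq, sub_zero, abs_of_pos (by linarith)]; linarith))
    rw [map_add, hcon z hz, map_smul, smul_eq_mul] at h1
    have h2 : ε / 2 * h v = 0 := by linarith
    rcases mul_eq_zero.1 h2 with h3 | h3
    · linarith
    · simpa using h3
  refine ⟨o, ho, ?_⟩
  rw [Fintype.linearIndependent_iff]
  intro g hg
  have hsum : ∑ i, g i = 0 := by
    have h1 := congrArg h hg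
    rw [map_sum, map_zero] at h1
    have h2 : ∀ i, h (g i • (p i - o)) = g i * (h (p 0) - h o) := by
      intro i
      rw [map_smul, map_sub, hall i, smul_eq_mul]
    rw [Finset.sum_congr rfl fun i _ => h2 i, ← Finset.sum_mul] at h1
    rcases mul_eq_zero.1 h1 with h3 | h3
    · exact h3
    · exact absurd (by linarith) hoh
  have hz : ∑ i, g i • p i = 0 := by
    have h1 : ∑ i, g i • (p i - o) = ∑ i, g i • p i - (∑ i, g i) • o := by
      rw [Finset.sum_smul, ← Finset.sum_sub_distrib]
      exact Finset.sum_congr rfl fun i _ => smul_sub _ _ _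
    rw [h1, hsum, zero_smul, sub_zero] at hg
    exact hg
  intro i
  exact (affineIndependent_iff.1 hp) Finset.univ g hsum hz i (Finset.mem_univ i)

/-- **two crossing segments**: among three of the `a` and three of the `x` there are two and two in
a common supporting plane -/
theorem Crown.four (h : Crown K a x) (hint : (interior K).Nonempty) (i j : Fin 3 → ι)
    (hi : Function.Injective i) (hj : Function.Injective j) (hij : ∀ p q, i p ≠ j q)
    (hne : ∀ p q, a (i p) ≠ x (j q)) :
    ∃ p p' q q' : Fin 3, p ≠ p' ∧ q ≠ q' ∧ ∃ (f : E →L[ℝ] ℝ) (c : ℝ), Sup K f c ∧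
      f (a (i p)) = c ∧ f (a (i p')) = c ∧ f (x (j q)) = c ∧ f (x (j q')) = c := by
  obtain ⟨o, ho, hlin⟩ := exists_origin hint (a ∘ i) (h.affineIndependent i hi)
  obtain ⟨p, p', q, q', hp, hq, α, γ, t, hα, hγ, ht0, ht1, heq⟩ :=
    crossing (fun m => (a ∘ i) m - o) (fun m => x (j m) - o) hlin
  simp only [Function.comp_apply] at heq
  have hap : i p ≠ i p' := fun e => hp (hi e)
  have hxq : j q ≠ j q' := fun e => hq (hj e)
  obtain ⟨f, c, hf, hfa, hfx⟩ := h.sup (i p) (j q') (hij _ _)
  obtain ⟨f', c', hf', hfa', hfx'⟩ := h.sup (i p') (j q) (hij _ _)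
  have hδ : 0 < c - f o := by have := hf.2 o ho; linarith
  have hδ' : 0 < c' - f' o := by have := hf'.2 o ho; linarith
  have e1 := congrArg f heq
  have e2 := congrArg f' heq
  simp only [map_add, map_smul, map_sub, smul_eq_mul, hfa, hfx] at e1
  simp only [map_add, map_smul, map_sub, smul_eq_mul, hfa', hfx'] at e2
  have b1 := hf.1 _ (h.aK (i p'))
  have b2 := hf.1 _ (h.xK (j q))
  have b1' := hf'.1 _ (h.aK (i p))
  have b2' := hf'.1 _ (h.xK (j q'))
  -- the coefficients have the same sum
  have s1 : α + t ≤ γ + (1 - t) := by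
    by_contra hc
    push Not at hc
    have h1 : γ * (f (a (i p')) - f o) ≤ γ * (c - f o) := by
      apply mul_le_mul_of_nonneg_left _ hγ; linarith
    have h2 : (1 - t) * (f (x (j q)) - f o) ≤ (1 - t) * (c - f o) := by
      apply mul_le_mul_of_nonneg_left _ (by linarith); linarith
    nlinarith
  have s2 : γ + (1 - t) ≤ α + t := by
    by_contra hc
    push Not at hc
    have h1 : α * (f' (a (i p)) - f' o) ≤ α * (c' - f' o) := by
      apply mul_le_mul_of_nonneg_left _ hα; linarith
    have h2 : t * (f' (x (j q')) - f' o) ≤ t * (c' - f' o) := by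
      apply mul_le_mul_of_nonneg_left _ ht0; linarith
    nlinarith
  have s3 : α + t = γ + (1 - t) := le_antisymm s1 s2
  -- the identity without the origin
  have heq' : α • a (i p) + t • x (j q') = γ • a (i p') + (1 - t) • x (j q) := by
    have h1 : α • (a (i p) - o) + t • (x (j q') - o) =
        α • a (i p) + t • x (j q') - (α + t) • o := by
      rw [smul_sub, smul_sub, add_smul]; abel
    have h2 : γ • (a (i p') - o) + (1 - t) • (x (j q) - o) =
        γ • a (i p') + (1 - t) • x (j q) - (γ + (1 - t)) • o := by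
      rw [smul_sub, smul_sub, add_smul]; abel
    rw [h1, h2, s3] at heq
    exact sub_left_injective heq
  have hΛ : 0 < α + t := by
    rcases le_total t (1 / 2) with h1 | h1 <;> linarith
  -- the case of positive coefficients
  rcases eq_or_lt_of_le hγ with hγ0 | hγ0
  · -- `x (j q)` on the segment from `a (i p)` to `x (j q')`
    exfalso
    rw [← hγ0, zero_smul, zero_add] at heq'
    rw [← hγ0, zero_add] at s3
    have ht1' : 0 < 1 - t := by linarith
    have hx : x (j q) = (1 - α / (1 - t)) • x (j q') + (α / (1 - t)) • a (i p) := by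
      have h1 : x (j q) = (1 - t)⁻¹ • ((1 - t) • x (j q)) := by
        rw [smul_smul, inv_mul_cancel₀ ht1'.ne', one_smul]
      rw [h1, ← heq', smul_add, smul_smul, smul_smul, add_comm]
      congr 2
      · field_simp; linarith
      · field_simp
    rcases eq_or_lt_of_le hα with hα0 | hα0
    · rw [← hα0, zero_div, sub_zero, one_smul, zero_smul, add_zero] at hx
      exact h.symm.ne hxq hx
    · rcases eq_or_lt_of_le ht0 with ht00 | ht00
      · have : α / (1 - t) = 1 := by
          rw [div_eq_one_iff_eq ht1'.ne']; linarith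
        rw [this, sub_self, zero_smul, one_smul, zero_add] at hx
        exact hne _ _ hx.symm
      · refine h.symm.noMid hxq (h.aK (i p)) (div_pos hα0 ht1') ?_ hx
        rw [div_lt_one ht1']; linarith
  · rcases eq_or_lt_of_le ht1 with ht11 | ht11
    · -- `a (i p')` on the segment from `a (i p)` to `x (j q')`
      exfalso
      rw [ht11, sub_self, zero_smul, add_zero, one_smul] at heq'
      rw [ht11, sub_self, add_zero] at s3
      have hx : a (i p') = (1 - 1 / γ) • a (i p) + (1 / γ) • x (j q') := by
        have h1 : a (i p') = γ⁻¹ • (γ • a (i p')) := by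
          rw [smul_smul, inv_mul_cancel₀ hγ0.ne', one_smul]
        rw [h1, ← heq', smul_add, smul_smul]
        congr 2
        · field_simp; linarith
        · field_simp
      rcases eq_or_lt_of_le hα with hα0 | hα0
      · have : γ = 1 := by linarith
        rw [this] at hx
        simp only [div_one, sub_self, zero_smul, one_smul, zero_add] at hx
        exact hne _ _ hx
      · refine h.noMid hap.symm (h.xK (j q')) (by positivity) ?_ hx
        rw [div_lt_one hγ0]; linarith
    · refine ⟨p, p', q, q', hp, hq, f, c, hf, hfa, ?_, ?_, hfx⟩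
      · by_contra hne'
        have h1 : f (a (i p')) < c := lt_of_le_of_ne b1 hne'
        have h2 : γ * (f (a (i p')) - f o) < γ * (c - f o) :=
          mul_lt_mul_of_pos_left (by linarith) hγ0
        have h3 : (1 - t) * (f (x (j q)) - f o) ≤ (1 - t) * (c - f o) :=
          mul_le_mul_of_nonneg_left (by linarith) (by linarith)
        have h4 : (α + t) * (c - f o) = (γ + (1 - t)) * (c - f o) := by rw [s3]
        nlinarith
      · by_contra hne'
        have h1 : f (x (j q)) < c := lt_of_le_of_ne b2 hne'
        have h2 : γ * (f (a (i p')) - f o) ≤ γ * (c - f o) :=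
          mul_le_mul_of_nonneg_left (by linarith) hγ
        have h3 : (1 - t) * (f (x (j q)) - f o) < (1 - t) * (c - f o) :=
          mul_lt_mul_of_pos_left (by linarith) (by linarith)
        have h4 : (α + t) * (c - f o) = (γ + (1 - t)) * (c - f o) := by rw [s3]
        nlinarith

end Pool.Agent.Y513.Illum
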