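import Pool.Agent.Y513.Illum2

/-!
# A crown in the boundary of a three-dimensional convex body has at most 44 points

Counting of the faces: a face contains at most six of the `a`, and at most two faces contain two
given `x` and some `a` not on their line.
-/

set_option autoImplicit false

namespace Pool.Agent.Y513.Illum

open Set

/-- `{f (z - o) = 1}` is a supporting plane of `K` -/
def Nf (K : Set E) (o : E) (f : E →L[ℝ] ℝ) : Prop := ∀ z ∈ K, f (z - o) ≤ 1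

variable {ι : Type*} {K : Set E} {a x : ι → E} {o : E}

theorem Sup.normalize {f : E →L[ℝ] ℝ} {c : ℝ} (h : Sup K f c) (ho : o ∈ interior K) :
    ∃ g : E →L[ℝ] ℝ, Nf K o g ∧ ∀ p, f p = c → g (p - o) = 1 := by
  have h0 : 0 < c - f o := by have := h.2 o ho; linarith
  refine ⟨(c - f o)⁻¹ • f, ?_, ?_⟩
  · intro z hz
    have h1 := h.1 z hz
    rw [ContinuousLinearMap.smul_apply, map_sub, smul_eq_mul, inv_mul_le_iff₀ h0]
    linarith
  · intro p hp
    rw [ContinuousLinearMap.smul_apply, map_sub, smul_eq_mul, hp, inv_mul_cancel₀ h0.ne']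

theorem Nf.lt {f : E →L[ℝ] ℝ} (h : Nf K o f) {w : E} (hw : w ∈ interior K) : f (w - o) < 1 := by
  have hcont : Continuous fun t : ℝ => w + t • (w - o) := by fun_prop
  have hev : ∀ᶠ t : ℝ in nhds 0, w + t • (w - o) ∈ interior K := by
    apply hcont.continuousAt.preimage_mem_nhds
    simpa using isOpen_interior.mem_nhds hw
  obtain ⟨ε, hε, hball⟩ := Metric.eventually_nhds_iff.1 hev
  have h1 := h _ (interior_subset (hball (y := ε / 2) (by
    rw [Real.dist_eq, sub_zero, abs_of_pos (by linarith)]; linarith)))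
  have h2 : w + (ε / 2) • (w - o) - o = (1 + ε / 2) • (w - o) := by
    rw [add_smul, one_smul]; abel
  rw [h2, map_smul, smul_eq_mul] at h1
  by_contra hc
  push Not at hc
  nlinarith

theorem Nf.sup {f : E →L[ℝ] ℝ} (h : Nf K o f) : Sup K f (1 + f o) := by
  constructor
  · intro z hz
    have := h z hz
    rw [map_sub] at this
    linarith
  · intro z hz
    have := h.lt hz
    rw [map_sub] at this
    linarith

theorem Crown.nf (h : Crown K a x) {f : E →L[ℝ] ℝ} (hf : Nf K o f) (i : ι)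
    (h1 : f (a i - o) = 1) : f (x i - o) ≠ 1 := by
  intro h2
  rw [map_sub] at h1 h2
  exact h.nsup i f _ hf.sup (by linarith) (by linarith)

theorem uniq {f g : E →L[ℝ] ℝ} (p : Fin 3 → E) (hp : AffineIndependent ℝ p)
    (hf : ∀ i, f (p i - o) = 1) (hg : ∀ i, g (p i - o) = 1) : f = g := by
  have hlin : LinearIndependent ℝ (fun i => p i - o) := by
    rw [Fintype.linearIndependent_iff]
    intro c hc
    have hsum : ∑ i, c i = 0 := by
      have h1 := congrArg f hc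
      rw [map_sum, map_zero] at h1
      simpa [hf] using h1
    have hz : ∑ i, c i • p i = 0 := by
      have h1 : ∑ i, c i • (p i - o) = ∑ i, c i • p i - (∑ i, c i) • o := by
        rw [Finset.sum_smul, ← Finset.sum_sub_distrib]
        exact Finset.sum_congr rfl fun i _ => smul_sub _ _ _
      rw [h1, hsum, zero_smul, sub_zero] at hc
      exact hc
    intro i
    exact (affineIndependent_iff.1 hp) Finset.univ c hsum hz i (Finset.mem_univ i)
  have hcard : Fintype.card (Fin 3) = Module.finrank ℝ E := by simp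
  set b := basisOfLinearIndependentOfCardEqFinrank hlin hcard with hb
  have hbv : ∀ i, b i = p i - o := fun i => by
    rw [hb, coe_basisOfLinearIndependentOfCardEqFinrank]
  have h1 : (f : E →ₗ[ℝ] ℝ) = (g : E →ₗ[ℝ] ℝ) := by
    apply b.ext
    intro i
    rw [hbv]
    exact (hf i).trans (hg i).symm
  ext v
  exact LinearMap.congr_fun h1 v

theorem uniq' {f g : E →L[ℝ] ℝ} {p q r : E} (hp : AffineIndependent ℝ ![p, q, r])
    (f1 : f (p - o) = 1) (f2 : f (q - o) = 1) (f3 : f (r - o) = 1)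
    (g1 : g (p - o) = 1) (g2 : g (q - o) = 1) (g3 : g (r - o) = 1) : f = g := by
  refine uniq (o := o) ![p, q, r] hp ?_ ?_
  · intro i; fin_cases i
    · exact f1
    · exact f2
    · exact f3
  · intro i; fin_cases i
    · exact g1
    · exact g2
    · exact g3

/-- of three functionals on a pencil one is between the other two -/
theorem pencil_aux {f₁ f₂ f₃ : E →L[ℝ] ℝ} (h₁ : Nf K o f₁) (h₃ : Nf K o f₃)
    {p q r₁ r₂ : E} (hr₂ : r₂ ∈ K)
    (a₁ : AffineIndependent ℝ ![p, q, r₁]) (a₂ : AffineIndependent ℝ ![p, q, r₂])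
    (p₁ : f₁ (p - o) = 1) (p₂ : f₂ (p - o) = 1) (p₃ : f₃ (p - o) = 1)
    (q₁ : f₁ (q - o) = 1) (q₂ : f₂ (q - o) = 1) (q₃ : f₃ (q - o) = 1)
    (e₁ : f₁ (r₁ - o) = 1) (e₂ : f₂ (r₂ - o) = 1)
    (hlt1 : f₂ (r₁ - o) < 1) (hlt2 : f₃ (r₁ - o) < f₂ (r₁ - o)) : f₁ = f₂ := by
  set y := f₂ (r₁ - o) with hy
  set z := f₃ (r₁ - o) with hz
  set s := (1 - y) / (1 - z) with hs
  have hz1 : 0 < 1 - z := by linarith
  have hs0 : 0 < s := div_pos (by linarith) hz1
  have hs1 : s < 1 := by rw [hs, div_lt_one hz1]; linarith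
  -- the functional `f₁ + s (f₃ - f₁)` agrees with `f₂`
  have key : f₂ (r₂ - o) = (1 - s) * f₁ (r₂ - o) + s * f₃ (r₂ - o) := by
    -- `g = f₁ + (1 - y)⁻¹ (f₂ - (1-s) f₁ - s f₃)`-type argument via uniqueness
    have h1 : f₁ = f₁ + (f₂ - ((1 - s) • f₁ + s • f₃)) := by
      refine uniq' (o := o) a₁ p₁ q₁ e₁ ?_ ?_ ?_
      · simp only [ContinuousLinearMap.add_apply, ContinuousLinearMap.sub_apply,
          ContinuousLinearMap.smul_apply, smul_eq_mul, p₁, p₂, p₃]; ring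
      · simp only [ContinuousLinearMap.add_apply, ContinuousLinearMap.sub_apply,
          ContinuousLinearMap.smul_apply, smul_eq_mul, q₁, q₂, q₃]; ring
      · simp only [ContinuousLinearMap.add_apply, ContinuousLinearMap.sub_apply,
          ContinuousLinearMap.smul_apply, smul_eq_mul, e₁, ← hy, ← hz]
        rw [hs]; field_simp; ring
    have h2 := congrArg (fun g : E →L[ℝ] ℝ => g (r₂ - o)) h1
    simp only [ContinuousLinearMap.add_apply, ContinuousLinearMap.sub_apply,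
      ContinuousLinearMap.smul_apply, smul_eq_mul] at h2
    linarith
  have b1 := h₁ r₂ hr₂
  have b3 := h₃ r₂ hr₂
  have hf1 : f₁ (r₂ - o) = 1 := by
    by_contra hne
    have : f₁ (r₂ - o) < 1 := lt_of_le_of_ne b1 hne
    nlinarith
  exact uniq' a₂ p₁ q₁ hf1 p₂ q₂ e₂

/-- at most two faces (of dimension two) contain two given points -/
theorem pencil {f₁ f₂ f₃ : E →L[ℝ] ℝ} (h₁ : Nf K o f₁) (h₂ : Nf K o f₂) (h₃ : Nf K o f₃)
    {p q r₁ r₂ r₃ : E} (hr₁ : r₁ ∈ K) (hr₂ : r₂ ∈ K) (hr₃ : r₃ ∈ K)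
    (a₁ : AffineIndependent ℝ ![p, q, r₁]) (a₂ : AffineIndependent ℝ ![p, q, r₂])
    (a₃ : AffineIndependent ℝ ![p, q, r₃])
    (p₁ : f₁ (p - o) = 1) (p₂ : f₂ (p - o) = 1) (p₃ : f₃ (p - o) = 1)
    (q₁ : f₁ (q - o) = 1) (q₂ : f₂ (q - o) = 1) (q₃ : f₃ (q - o) = 1)
    (e₁ : f₁ (r₁ - o) = 1) (e₂ : f₂ (r₂ - o) = 1) (e₃ : f₃ (r₃ - o) = 1) :
    f₁ = f₂ ∨ f₁ = f₃ ∨ f₂ = f₃ := by
  rcases eq_or_lt_of_le (h₂ r₁ hr₁) with h | h
  · left; exact uniq' a₁ p₁ q₁ e₁ p₂ q₂ h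
  rcases eq_or_lt_of_le (h₃ r₁ hr₁) with h' | h'
  · right; left; exact uniq' a₁ p₁ q₁ e₁ p₃ q₃ h'
  rcases lt_trichotomy (f₃ (r₁ - o)) (f₂ (r₁ - o)) with h3 | h3 | h3
  · left
    exact pencil_aux h₁ h₃ hr₂ a₁ a₂ p₁ p₂ p₃ q₁ q₂ q₃ e₁ e₂ h h3
  · right; right
    -- `f₂` and `f₃` agree on a basis
    have h1 : f₁ = f₁ + (f₂ - f₃) := by
      refine uniq' (o := o) a₁ p₁ q₁ e₁ ?_ ?_ ?_
      · simp only [ContinuousLinearMap.add_apply, ContinuousLinearMap.sub_apply, p₁, p₂, p₃]; ring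
      · simp only [ContinuousLinearMap.add_apply, ContinuousLinearMap.sub_apply, q₁, q₂, q₃]; ring
      · simp only [ContinuousLinearMap.add_apply, ContinuousLinearMap.sub_apply, e₁, h3]; ring
    have h2 : f₂ - f₃ = 0 := by
      have := h1.symm
      rwa [add_eq_left] at this
    exact sub_eq_zero.1 h2
  · right; left
    exact pencil_aux h₁ h₂ hr₃ a₁ a₃ p₁ p₃ p₂ q₁ q₃ q₂ e₁ e₃ h' h3

/-- sign lemma -/
theorem signs {c₁ c₂ c₃ A₂ A₃ B₁ B₃ C₁ C₂ : ℝ} (hA₂ : A₂ < 0) (hA₃ : A₃ < 0) (hB₁ : B₁ < 0)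
    (hB₃ : B₃ < 0) (hC₁ : C₁ < 0) (hC₂ : C₂ < 0) (h1 : c₂ * A₂ + c₃ * A₃ = 0)
    (h2 : c₁ * B₁ + c₃ * B₃ = 0) (h3 : c₁ * C₁ + c₂ * C₂ = 0) : c₁ = 0 ∧ c₂ = 0 ∧ c₃ = 0 := by
  have z1 : c₂ = 0 ↔ c₃ = 0 := by
    constructor
    · rintro rfl
      rw [zero_mul, zero_add] at h1
      exact (mul_eq_zero.1 h1).resolve_right hA₃.ne
    · rintro rfl
      rw [zero_mul, add_zero] at h1
      exact (mul_eq_zero.1 h1).resolve_right hA₂.ne
  have z2 : c₁ = 0 ↔ c₃ = 0 := by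
    constructor
    · rintro rfl
      rw [zero_mul, zero_add] at h2
      exact (mul_eq_zero.1 h2).resolve_right hB₃.ne
    · rintro rfl
      rw [zero_mul, add_zero] at h2
      exact (mul_eq_zero.1 h2).resolve_right hB₁.ne
  by_cases hc : c₃ = 0
  · exact ⟨z2.2 hc, z1.2 hc, hc⟩
  exfalso
  have hc1 : c₁ ≠ 0 := fun h => hc (z2.1 h)
  have hc2 : c₂ ≠ 0 := fun h => hc (z1.1 h)
  rcases lt_or_gt_of_ne hc1 with g1 | g1 <;> rcases lt_or_gt_of_ne hc2 with g2 | g2 <;>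
    rcases lt_or_gt_of_ne hc with g3 | g3
  · have := mul_pos_of_neg_of_neg g1 hC₁; have := mul_pos_of_neg_of_neg g2 hC₂; linarith
  · have := mul_pos_of_neg_of_neg g1 hC₁; have := mul_pos_of_neg_of_neg g2 hC₂; linarith
  · have := mul_pos_of_neg_of_neg g1 hB₁; have := mul_pos_of_neg_of_neg g3 hB₃; linarith
  · have := mul_neg_of_pos_of_neg g2 hA₂; have := mul_neg_of_pos_of_neg g3 hA₃; linarith
  · have := mul_pos_of_neg_of_neg g2 hA₂; have := mul_pos_of_neg_of_neg g3 hA₃; linarith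
  · have := mul_neg_of_pos_of_neg g1 hB₁; have := mul_neg_of_pos_of_neg g3 hB₃; linarith
  · have := mul_neg_of_pos_of_neg g1 hC₁; have := mul_neg_of_pos_of_neg g2 hC₂; linarith
  · have := mul_neg_of_pos_of_neg g1 hC₁; have := mul_neg_of_pos_of_neg g2 hC₂; linarith

/-- in a face each `a i` has at most two neighbours -/
theorem Crown.degree (h : Crown K a x) {f : E →L[ℝ] ℝ} {i k₁ k₂ k₃ : ι}
    (h1 : i ≠ k₁) (h2 : i ≠ k₂) (h3 : i ≠ k₃) (h12 : k₁ ≠ k₂) (h13 : k₁ ≠ k₃) (h23 : k₂ ≠ k₃)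
    (f0 : f (a i - o) = 1) (f1 : f (a k₁ - o) = 1) (f2 : f (a k₂ - o) = 1)
    (f3 : f (a k₃ - o) = 1)
    {g₁ g₂ g₃ : E →L[ℝ] ℝ} (n1 : Nf K o g₁) (n2 : Nf K o g₂) (n3 : Nf K o g₃)
    (d1 : g₁ ≠ f) (d2 : g₂ ≠ f) (d3 : g₃ ≠ f)
    (e1 : g₁ (a i - o) = 1) (e2 : g₂ (a i - o) = 1) (e3 : g₃ (a i - o) = 1)
    (e1' : g₁ (a k₁ - o) = 1) (e2' : g₂ (a k₂ - o) = 1) (e3' : g₃ (a k₃ - o) = 1) : False := by
  -- a linear relation
  have hdep : ¬ LinearIndependent ℝ ![a i - o, a k₁ - o, a k₂ - o, a k₃ - o] := by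
    intro hl
    have := hl.fintype_card_le_finrank
    simp at this
  rw [Fintype.linearIndependent_iff] at hdep
  push Not at hdep
  obtain ⟨c, hc, m, hm⟩ := hdep
  simp only [Fin.sum_univ_four, Matrix.cons_val_zero, Matrix.cons_val_one, Matrix.cons_val] at hc
  have hs : c 0 + c 1 + c 2 + c 3 = 0 := by
    have := congrArg f hc
    simpa [f0, f1, f2, f3] using this
  have aff : ∀ {k l : ι}, i ≠ k → i ≠ l → k ≠ l → AffineIndependent ℝ ![a i, a k, a l] := by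
    intro k l h4 h5 h6
    have h7 := h.affineIndependent ![i, k, l] (by
      intro s t hst
      fin_cases s <;> fin_cases t <;> simp_all)
    have h8 : a ∘ ![i, k, l] = ![a i, a k, a l] := by
      funext s; fin_cases s <;> rfl
    rwa [h8] at h7
  have lt : ∀ {g : E →L[ℝ] ℝ} {k l : ι}, Nf K o g → g ≠ f → i ≠ k → i ≠ l → k ≠ l →
      g (a i - o) = 1 → g (a k - o) = 1 → f (a k - o) = 1 → f (a l - o) = 1 →
      g (a l - o) < 1 := by
    intro g k l hn hd h4 h5 h6 h7 h8 h9 h10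
    refine lt_of_le_of_ne (hn _ (h.aK l)) fun h11 => hd ?_
    exact uniq' (aff h4 h5 h6) h7 h8 h11 f0 h9 h10
  have A2 := lt n1 d1 h1 h2 h12 e1 e1' f1 f2
  have A3 := lt n1 d1 h1 h3 h13 e1 e1' f1 f3
  have B1 := lt n2 d2 h2 h1 h12.symm e2 e2' f2 f1
  have B3 := lt n2 d2 h2 h3 h23 e2 e2' f2 f3
  have C1 := lt n3 d3 h3 h1 h13.symm e3 e3' f3 f1
  have C2 := lt n3 d3 h3 h2 h23.symm e3 e3' f3 f2
  have r1 := congrArg g₁ hc
  have r2 := congrArg g₂ hc
  have r3 := congrArg g₃ hc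
  simp only [map_add, map_smul, smul_eq_mul, map_zero, e1, e1'] at r1
  simp only [map_add, map_smul, smul_eq_mul, map_zero, e2, e2'] at r2
  simp only [map_add, map_smul, smul_eq_mul, map_zero, e3, e3'] at r3
  obtain ⟨z1, z2, z3⟩ := signs (c₁ := c 1) (c₂ := c 2) (c₃ := c 3)
    (A₂ := g₁ (a k₂ - o) - 1) (A₃ := g₁ (a k₃ - o) - 1) (B₁ := g₂ (a k₁ - o) - 1)
    (B₃ := g₂ (a k₃ - o) - 1) (C₁ := g₃ (a k₁ - o) - 1) (C₂ := g₃ (a k₂ - o) - 1)
    (by linarith) (by linarith) (by linarith) (by linarith) (by linarith) (by linarith)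
    (by linarith) (by linarith) (by linarith)
  apply hm
  fin_cases m
  · show c 0 = 0
    linarith
  · exact z1
  · exact z2
  · exact z3

end Pool.Agent.Y513.Illum
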